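import Pool.Agent.Helper42.JefStmt.Main

/-!
# Global weak solutions of the corotational Jeffreys system

For every dimension `n`, every bounded open `Ω ⊆ ℝⁿ`, all constants `η > 0`, `λ₁ > λ₂ > 0` and all
data `v₀ ∈ H`, symmetric `τ₀ ∈ L²(Ω)`, `f ∈ L²_loc([0,∞);V*)`, the corotational (Jaumann) Jeffreys
system has a global weak solution.  The function spaces and the notion of weak solution are in
`Pool/Agent/Helper42/JefStmt/Defs.lean`.
-/

open MeasureTheory Set

namespace Pool.Agent.Results.MP_6e2b46_an.GlobalWeakSolutions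

open Pool.Agent.Helper42.JefStmt

/-- Global weak solvability of the corotational Jeffreys model, for every initial velocity in
`H`, every symmetric initial stress in `L²` and every force in `L²_loc([0,∞);V*)`. -/
theorem result (n : ℕ) (Ω : Set (Vec n)) (hΩ : IsOpen Ω) (hb : Bornology.IsBounded Ω)
    (η lam1 lam2 : ℝ) (hη : 0 < η) (hlam2 : 0 < lam2) (hlam : lam2 < lam1)
    (v0 : VField n) (hv0 : InH Ω v0) (τ0 : MField n) (hτ0 : InL2M Ω τ0)
    (hsym : ∀ i j, ∀ᵐ x ∂(volume.restrict Ω), τ0 i j x = τ0 j i x)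
    (f : ℝ → VField n → ℝ) (hf : IsForce Ω f) :
    HasGlobalWeakSolution Ω η lam1 lam2 f v0 τ0 :=
  main hΩ hb hη hlam2 hlam hv0.1 hτ0 hsym hf

end Pool.Agent.Results.MP_6e2b46_an.GlobalWeakSolutions
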